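import Pool.Agent.Q215.ZMad

set_option autoImplicit false

/-!
# Every analytic maximal almost disjoint family for the density zero ideal is countable
-/

namespace Pool.Agent.Results.MP_af84fe_lc.Countable

open Filter Topology

/-- The density zero ideal: the sets `A` of natural numbers with `|A ∩ {0, ..., n - 1}| / n → 0`. -/
def DensityZero : Set (Set ℕ) :=
  {A | Tendsto (fun n : ℕ => ((A ∩ Set.Iio n).ncard : ℝ) / n) atTop (𝓝 0)}

/-- A maximal almost disjoint family for an ideal `I` of sets of natural numbers. -/
structure IsMADFamily (I : Set (Set ℕ)) (F : Set (Set ℕ)) : Prop where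
  /-- The members are positive. -/
  positive : ∀ A ∈ F, A ∉ I
  /-- Distinct members are almost disjoint. -/
  almostDisjoint : ∀ A ∈ F, ∀ B ∈ F, A ≠ B → A ∩ B ∈ I
  /-- The family is maximal. -/
  maximal : ∀ X, X ∉ I → ∃ A ∈ F, X ∩ A ∉ I

/-- A family of sets of natural numbers is analytic if the set of the characteristic functions of
its members is an analytic subset of the Cantor space. -/
def IsAnalyticFamily (F : Set (Set ℕ)) : Prop :=
  MeasureTheory.AnalyticSet {χ : ℕ → Bool | {n | χ n = true} ∈ F}

/-- **Every analytic `Z_0`-MAD family is countable.** -/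
theorem result (F : Set (Set ℕ)) (hF : IsAnalyticFamily F) (hmad : IsMADFamily DensityZero F) :
    F.Countable :=
  Pool.Agent.Q215.ZMad.countable hF hmad.positive hmad.almostDisjoint hmad.maximal

end Pool.Agent.Results.MP_af84fe_lc.Countable
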